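import Pool.Agent.PTFT.Tester

/-!
# A one-sided tester for low degree polynomial threshold functions

Full answer to Q1 of MP_375aa5_lc.
-/

set_option autoImplicit false


namespace Pool.Agent.Results.MP_375aa5_lc.OneSidedTester

/-- The point of `{-1, 1}` named by a Boolean. -/
def sgn (b : Bool) : ℝ := if b then 1 else -1

/-- `f : {-1,1}^n → {-1,1}` is a polynomial threshold function of degree at most `d`:
`f(x) = sign p(x)` for a real polynomial `p` of degree at most `d` that vanishes nowhere on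
`{-1,1}^n`. -/
def IsPTF {n : ℕ} (d : ℕ) (f : (Fin n → Bool) → Bool) : Prop :=
  ∃ p : MvPolynomial (Fin n) ℝ, p.totalDegree ≤ d ∧
    ∀ x : Fin n → Bool, 0 < sgn (f x) * MvPolynomial.eval (fun i => sgn (x i)) p

/-- The distance `Pr_x [f(x) ≠ g(x)]`. -/
noncomputable def dist {n : ℕ} (f g : (Fin n → Bool) → Bool) : ℝ :=
  ((Finset.univ.filter fun x => f x ≠ g x).card : ℝ) / 2 ^ n

/-- A non-adaptive randomized algorithm with `q` queries: a finite probability space, the `q`
query points for every outcome, and the decision as a function of the outcome and the answers. -/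
structure Tester (n q : ℕ) where
  Ω : Type
  [fin : Fintype Ω]
  prob : Ω → ℝ
  prob_nonneg : ∀ ω, 0 ≤ prob ω
  prob_sum : ∑ ω, prob ω = 1
  query : Ω → Fin q → (Fin n → Bool)
  decision : Ω → (Fin q → Bool) → Bool

attribute [instance] Tester.fin

/-- The probability that the tester accepts `f`. -/
def Tester.accept {n q : ℕ} (T : Tester n q) (f : (Fin n → Bool) → Bool) : ℝ :=
  ∑ ω, if T.decision ω (fun j => f (T.query ω j)) = true then T.prob ω else 0

theorem isPTF_iff {n d : ℕ} (f : (Fin n → Bool) → Bool) : IsPTF d f ↔ PTFT.IsPTF d f := by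
  have hs : (fun i : Bool => sgn i) = fun i : Bool => if i then (1 : ℝ) else -1 := rfl
  constructor
  · rintro ⟨p, hp, h⟩
    refine (PTFT.isPTF_iff f).1 ⟨p, hp, fun x => ?_⟩
    have hx := h x
    have e : (fun i => sgn (x i)) = fun i => if x i then (1 : ℝ) else -1 := rfl
    rw [e] at hx
    cases hf : f x
    · rw [hf] at hx
      simp only [sgn, Bool.false_eq_true, if_false, neg_mul, one_mul] at hx
      symm
      rw [decide_eq_false_iff_not]
      linarith
    · rw [hf] at hx
      simp only [sgn, if_true, one_mul] at hx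
      symm
      rw [decide_eq_true_iff]
      exact hx
  · intro hf
    obtain ⟨q, hq, h⟩ := hf.strict
    obtain ⟨p, hp, hpq⟩ := PTFT.deg_to_poly q hq
    refine ⟨p, hp, fun x => ?_⟩
    have e : (fun i => sgn (x i)) = fun i => if x i then (1 : ℝ) else -1 := rfl
    rw [e, hpq]
    have hx := h x
    cases hf : f x
    · rw [hf, PTFT.sg_false] at hx
      simpa [sgn] using hx
    · rw [hf, PTFT.sg_true] at hx
      simpa [sgn] using hx

/-- For all `d`, `ε` and `δ` there is a number `q` of queries such that for every `n` there is a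
non-adaptive tester with `q` queries that accepts every polynomial threshold function of degree at
most `d` on `{-1,1}^n` with probability `1`, and accepts every function that is `ε`-far from all
of them with probability at most `δ`. -/
theorem result (d : ℕ) (ε δ : ℝ) (hε : 0 < ε) (hδ : 0 < δ) :
    ∃ q : ℕ, ∀ n : ℕ, ∃ T : Tester n q,
      (∀ f : (Fin n → Bool) → Bool, IsPTF d f → T.accept f = 1) ∧
      ∀ f : (Fin n → Bool) → Bool, (∀ g : (Fin n → Bool) → Bool, IsPTF d g → ε ≤ dist f g) →
        T.accept f ≤ δ := by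
  classical
  obtain ⟨ε', hε', hε1, hεε⟩ : ∃ ε' : ℝ, 0 < ε' ∧ ε' ≤ 1 ∧ ε' ≤ ε :=
    ⟨min ε 1, lt_min hε one_pos, min_le_right _ _, min_le_left _ _⟩
  obtain ⟨K, hK, hsound⟩ := PTFT.minor_soundness d hε' hε1
  have hKne : NeZero K := ⟨hK.ne'⟩
  obtain ⟨m0, hm0⟩ := exists_pow_lt_of_lt_one hδ (show 1 - ε' / 4 < 1 by linarith)
  refine ⟨Fintype.card (Fin m0 × (Fin K → Bool)), fun n => ?_⟩
  obtain ⟨eq⟩ : Nonempty (Fin (Fintype.card (Fin m0 × (Fin K → Bool))) ≃ Fin m0 × (Fin K → Bool)) :=
    ⟨(Fintype.equivFin _).symm⟩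
  have hpos : (0 : ℝ) < Fintype.card (Fin m0 → (Fin n → Fin K) × (Fin n → Bool)) :=
    PTFT.card_pos'
  let T : Tester n (Fintype.card (Fin m0 × (Fin K → Bool))) :=
    { Ω := Fin m0 → (Fin n → Fin K) × (Fin n → Bool)
      prob := fun _ => 1 / (Fintype.card (Fin m0 → (Fin n → Fin K) × (Fin n → Bool)) : ℝ)
      prob_nonneg := fun _ => by positivity
      prob_sum := by
        rw [Finset.sum_const, Finset.card_univ, nsmul_eq_mul]
        field_simp
      query := fun t i => PTFT.mn (t (eq i).1).2 (t (eq i).1).1 (eq i).2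
      decision := fun t ans =>
        decide (∀ j : Fin m0, PTFT.IsPTF d (fun z : Fin K → Bool => ans (eq.symm (j, z)))) }
  have hacc : ∀ f : (Fin n → Bool) → Bool, T.accept f =
      (PTFT.pr (fun ω : (Fin n → Fin K) × (Fin n → Bool) =>
        PTFT.IsPTF d (fun z => f (PTFT.mn ω.2 ω.1 z)))) ^ m0 := by
    intro f
    have h2 := PTFT.av_pi_prod (ι := Fin m0)
      (fun (_ : Fin m0) (ω : (Fin n → Fin K) × (Fin n → Bool)) =>
      (if PTFT.IsPTF d (fun z => f (PTFT.mn ω.2 ω.1 z)) then (1 : ℝ) else 0))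
    have h3 : ∏ _i : Fin m0, PTFT.av (fun ω : (Fin n → Fin K) × (Fin n → Bool) =>
        (if PTFT.IsPTF d (fun z => f (PTFT.mn ω.2 ω.1 z)) then (1 : ℝ) else 0))
        = (PTFT.pr (fun ω : (Fin n → Fin K) × (Fin n → Bool) =>
            PTFT.IsPTF d (fun z => f (PTFT.mn ω.2 ω.1 z)))) ^ m0 := by
      rw [Finset.prod_const, Finset.card_univ, Fintype.card_fin, ← PTFT.pr_eq]
    rw [← h3, ← h2]
    unfold PTFT.av
    rw [Finset.sum_div]
    unfold Tester.accept
    refine Finset.sum_congr rfl fun t _ => ?_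
    show (if decide (∀ j : Fin m0, PTFT.IsPTF d (fun z : Fin K → Bool =>
      f (PTFT.mn (t (eq (eq.symm (j, z))).1).2 (t (eq (eq.symm (j, z))).1).1
        (eq (eq.symm (j, z))).2))) = true
      then 1 / (Fintype.card (Fin m0 → (Fin n → Fin K) × (Fin n → Bool)) : ℝ) else 0) = _
    simp only [Equiv.apply_symm_apply, decide_eq_true_eq]
    by_cases hall : ∀ j : Fin m0, PTFT.IsPTF d (fun z => f (PTFT.mn (t j).2 (t j).1 z))
    · rw [if_pos hall, Finset.prod_eq_one]
      intro j _
      rw [if_pos (hall j)]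
    · rw [if_neg hall]
      have hall' := hall
      push Not at hall'
      obtain ⟨j, hj⟩ := hall'
      rw [Finset.prod_eq_zero (Finset.mem_univ j) (by rw [if_neg hj]), zero_div]
  refine ⟨T, fun f hf => ?_, fun f hf => ?_⟩
  · rw [hacc]
    have hptf := (isPTF_iff f).1 hf
    have h1 : PTFT.pr (fun ω : (Fin n → Fin K) × (Fin n → Bool) =>
        PTFT.IsPTF d (fun z => f (PTFT.mn ω.2 ω.1 z))) = 1 := by
      rw [PTFT.pr_eq]
      refine Eq.trans (PTFT.av_congr (g := fun _ => (1 : ℝ)) ?_) (PTFT.av_const 1)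
      intro ω
      rw [if_pos (hptf.minor ω.2 ω.1)]
    rw [h1, one_pow]
  · rw [hacc]
    have hfar : ∀ q : (Fin n → Bool) → ℝ, PTFT.degLE d q →
        ε' ≤ PTFT.pr (fun x => f x ≠ decide (0 < q x)) := by
      intro q hq
      have h1 := hf (fun x => decide (0 < q x)) ((isPTF_iff _).2 ⟨q, hq, fun _ => rfl⟩)
      have h2 : PTFT.pr (fun x => f x ≠ decide (0 < q x)) =
          dist f (fun x => decide (0 < q x)) := by
        rw [PTFT.pr_eq]
        unfold PTFT.av dist
        rw [Finset.sum_boole]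
        simp
      rw [h2]
      exact hεε.trans h1
    have h2 := hsound n f hfar
    have h3 := PTFT.pr_not (fun ω : (Fin n → Fin K) × (Fin n → Bool) =>
      PTFT.IsPTF d (fun z => f (PTFT.mn ω.2 ω.1 z)))
    have h4 : PTFT.pr (fun ω : (Fin n → Fin K) × (Fin n → Bool) =>
        PTFT.IsPTF d (fun z => f (PTFT.mn ω.2 ω.1 z))) ≤ 1 - ε' / 4 := by
      linarith
    exact (pow_le_pow_left₀ (PTFT.pr_nonneg _) h4 m0).trans hm0.le

end Pool.Agent.Results.MP_375aa5_lc.OneSidedTester
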